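import Mathlib
import Pool.Agent.Helper71.QcbDefs
import Pool.Agent.Helper71.QcbWitness

set_option autoImplicit false

/-!
# Problem MP_655036_lc: sequentially based versus based qcb0-spaces over the spaces N<alpha>

We prove that for every ordinal `α` with `1 ≤ α < ω₁` the class `Based (NN α)` is a proper
subclass of `SBased (NN α)`, and that the two classes are separated by a countable Hausdorff
space with exactly one non-isolated point. All definitions are in `Pool.Agent.Helper71.QcbDefs`.

The first theorems of this file are sanity checks for the definitions: they say that the
topologies of `expNat Q` and of `seqProd A` have the universal properties of the exponential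
`ω^Q` and of the product in the category of sequential spaces (hence in that of qcb0-spaces).

Idea of the proof of the main theorem. Let `Y = NN α`. One shows by induction on `α` that `Y` is
a continuous image of a set `D` of names in Cantor space whose complement is a projection of a
closed subset of `Y × 2^ω`. Let `Z` be the set of pairs `(c, b)` where `b` is in `D` and the
family of open sets coded by `c` behaves at `b` in such a way that the column of nodes over `c` is
avoided. The witness is the countable space of all nodes of the tree `2^ω × 2^ω` (isolated
points) together with one point whose neighbourhoods are the sets containing all nodes close to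
each point of `Z`. A diagonal argument shows that this space is not `Y`-based, while a `Y`-indexed
family of open sets detects exactly the convergent sequences, since the complement of `Z` is a
projection of a closed subset of `Y × 2^ω`.
-/

open Filter Topology TopologicalSpace Set
open Pool.Agent.Helper71.Qcb

namespace Pool.Agent.Results.MP_655036_lc.CountableWitness

/-- Convergence of sequences in `expNat Q` is continuous convergence. -/
theorem expNat_tendsto_iff (Q : TopCat.{1}) [SequentialSpace Q] (F : ℕ → expNat Q)
    (f : expNat Q) :
    Tendsto F atTop (𝓝 f) ↔ ContConv (fun n => (F n).1) f.1 := by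
  revert F f
  unfold expNat
  have h4 : (fun f : Q → ℕ => Continuous f) = fun f => SeqContinuous f := by
    funext f
    exact propext continuous_iff_seqContinuous
  rw [h4]
  intro F f
  exact tendsto_SC_iff (Q := Q) (F := F) (f := f)

/-- Universal property of the exponential: for a sequential space `W`, a map `g : W → ω^Q` is
continuous iff the uncurried map `W × Q → ω` is sequentially continuous. -/
theorem expNat_universal (Q : TopCat.{1}) [SequentialSpace Q] {W : Type} [TopologicalSpace W]
    [SequentialSpace W] (g : W → expNat Q) :
    Continuous g ↔ ∀ (w : ℕ → W) (w0 : W) (x : ℕ → Q) (a : Q), Tendsto w atTop (𝓝 w0) →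
      Tendsto x atTop (𝓝 a) → ∀ᶠ n in atTop, (g (w n)).1 (x n) = (g w0).1 a := by
  rw [continuous_iff_seqContinuous]
  constructor
  · intro h w w0 x a hw hx
    exact (expNat_tendsto_iff Q _ _).mp (h hw) x a hx
  · intro h w w0 hw
    rw [expNat_tendsto_iff]
    intro x a hx
    exact h w w0 x a hw hx

/-- Universal property of the product: for a sequential space `W`, a map into `seqProd A` is
continuous iff all its coordinates are continuous. -/
theorem seqProd_universal {ι : Type 1} (A : ι → TopCat.{1}) {W : Type} [TopologicalSpace W]
    [SequentialSpace W] (g : W → seqProd A) :
    Continuous g ↔ ∀ i, Continuous (fun w => g w i) := by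
  rw [continuous_iff_seqContinuous]
  constructor
  · intro h i
    rw [continuous_iff_seqContinuous]
    intro w w0 hw
    exact tendsto_SP_iff (Q := fun i => (A i : Type 1)).mp (h hw) i
  · intro h w w0 hw
    refine tendsto_SP_iff (Q := fun i => (A i : Type 1)).mpr fun i => ?_
    exact ((h i).tendsto w0).comp hw

/-- For every ordinal `α` with `1 ≤ α < ω₁`, every `ℕ⟨α⟩`-based qcb0-space is sequentially
`ℕ⟨α⟩`-based, and some countable Hausdorff qcb0-space with exactly one non-isolated point is
sequentially `ℕ⟨α⟩`-based but not `ℕ⟨α⟩`-based. -/
theorem result : ∀ α : Ordinal.{0}, 1 ≤ α → α < Ordinal.omega 1 →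
    Based (NN α) ⊂ SBased (NN α) ∧
    ∃ X : TopCat.{0}, X ∈ SBased (NN α) ∧ X ∉ Based (NN α) ∧ Countable X ∧ T2Space X ∧
      ∃! x : X, ¬ IsOpen ({x} : Set X) := by
  intro α h1 hα
  have h0 : α ≠ 0 := by
    rintro rfl
    exact absurd h1 (by simp)
  exact ⟨main α h0 hα, main_witness α h0 hα⟩

end Pool.Agent.Results.MP_655036_lc.CountableWitness
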